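import Pool.Agent.W945.Pw.Stm

/-! PW-NUM: the numerical bound and the number of seeds. -/

set_option autoImplicit false

namespace Pool.Agent.W103.Pw.NUM

open Finset Pool.Agent.W945.Pw

theorem sqrt_pow (a : ℕ) : Real.sqrt ((2 : ℝ) ^ (2 * a)) = 2 ^ a := by
  rw [mul_comm, pow_mul]
  exact Real.sqrt_sq (by positivity)

theorem bound (n m b e : ℕ) (hn : n ≤ 2 ^ m) :
    ((m + 1 : ℕ) : ℝ) * ((n : ℝ) * ((2 ^ (3 * b) : ℕ) : ℝ) /
        Real.sqrt (2 ^ (6 * b + 4 * m + 2 * e + 4))) +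
      (n : ℝ) ^ (6 * b + 4 * m + 2 * e + 4) / 2 ^ ((6 * b + 4 * m + 2 * e + 4) * (m + 1)) ≤
        1 / 2 ^ e := by
  have h1 : 6 * b + 4 * m + 2 * e + 4 = 2 * (3 * b + 2 * m + e + 2) := by ring
  have hn' : (n : ℝ) ≤ 2 ^ m := by exact_mod_cast hn
  have hm' : ((m + 1 : ℕ) : ℝ) ≤ 2 ^ m := by
    have : m + 1 ≤ 2 ^ m := Nat.succ_le_of_lt Nat.lt_two_pow_self
    exact_mod_cast this
  have hn0 : (0 : ℝ) ≤ n := Nat.cast_nonneg n
  have hA : ((m + 1 : ℕ) : ℝ) * ((n : ℝ) * ((2 ^ (3 * b) : ℕ) : ℝ) /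
      Real.sqrt (2 ^ (6 * b + 4 * m + 2 * e + 4))) ≤ 1 / 2 ^ (e + 2) := by
    rw [h1, sqrt_pow, ← mul_div_assoc, div_le_div_iff₀ (by positivity) (by positivity), one_mul]
    push_cast
    have h2 : ((m : ℝ) + 1) * ((n : ℝ) * 2 ^ (3 * b)) ≤ 2 ^ m * (2 ^ m * 2 ^ (3 * b)) := by
      have hm2 : ((m : ℝ) + 1) ≤ 2 ^ m := by
        have := hm'
        push_cast at this
        exact this
      gcongr
    calc ((m : ℝ) + 1) * ((n : ℝ) * 2 ^ (3 * b)) * 2 ^ (e + 2) ≤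
          2 ^ m * (2 ^ m * 2 ^ (3 * b)) * 2 ^ (e + 2) :=
          mul_le_mul_of_nonneg_right h2 (by positivity)
      _ = 2 ^ (3 * b + 2 * m + e + 2) := by ring
  have hB : (n : ℝ) ^ (6 * b + 4 * m + 2 * e + 4) /
      2 ^ ((6 * b + 4 * m + 2 * e + 4) * (m + 1)) ≤ 1 / 2 ^ (e + 2) := by
    set K := 6 * b + 4 * m + 2 * e + 4 with hK
    rw [div_le_div_iff₀ (by positivity) (by positivity), one_mul]
    calc (n : ℝ) ^ K * 2 ^ (e + 2) ≤ (2 ^ m) ^ K * 2 ^ K := by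
          have h3 : (n : ℝ) ^ K ≤ (2 ^ m) ^ K := pow_le_pow_left₀ hn0 hn' K
          have h4 : (2 : ℝ) ^ (e + 2) ≤ 2 ^ K := pow_le_pow_right₀ (by norm_num) (by omega)
          gcongr
      _ = 2 ^ (K * (m + 1)) := by rw [← pow_mul, ← pow_add]; congr 1; ring
  have hC : (1 : ℝ) / 2 ^ (e + 2) + 1 / 2 ^ (e + 2) ≤ 1 / 2 ^ e := by
    have h5 : (1 : ℝ) / 2 ^ (e + 2) = 1 / 2 ^ e / 4 := by
      rw [pow_add]
      field_simp
      norm_num
    rw [h5]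
    have h6 : (0 : ℝ) < 1 / 2 ^ e := by positivity
    linarith
  linarith

theorem seeds (m b e : ℕ) (F : Type) [Field F] [Fintype F] (hF : Fintype.card F = 2 ^ m) :
    Fintype.card (Seed F (6 * b + 4 * m + 2 * e + 4) (m + 1)) =
      2 ^ (m * (3 * m + 4) * (6 * b + 4 * m + 2 * e + 4)) := by
  set K := 6 * b + 4 * m + 2 * e + 4 with hK
  unfold Seed
  simp only [Fintype.card_prod, Fintype.card_pi, Finset.prod_const, Finset.card_univ,
    Fintype.card_fin, hF]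
  rw [← pow_mul, ← pow_mul, ← pow_add, ← pow_mul, ← pow_add]
  congr 1
  ring

theorem main : Pool.Agent.W945.Pw.NUM.Stm := by
  intro n m b e hn
  refine ⟨bound n m b e hn, ?_⟩
  intro F _ _ hF
  exact seeds m b e F hF

end Pool.Agent.W103.Pw.NUM
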